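import Pool.Agent.Lib.MP_1e8d1a_an.EQ.K5
import Pool.Agent.Lib.MP_1e8d1a_an.EQ.N6
import Pool.Agent.Lib.MP_1e8d1a_an.HM.GenD
import Pool.Agent.Lib.MP_1e8d1a_an.HM.Pairs

/-!
The `C^r` closing lemma for diffeomorphisms with torus symmetry: if `F` in `Diff^r(W)`, `W` compact,
commutes with a smooth action `ρ` of the torus `ℝ^k/ℤ^k`, `k ≥ 3`, and `r (r - 1) < k` (or
`(r - 1) (dim W - k) < k`), then `F` can be closed at every nonwandering (in particular at every
recurrent) point with trivial isotropy.  For `r = 2` the action of a three dimensional torus is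
enough: the `C²` closing lemma holds for every skew product on `M × T³`.  The same holds for limits
of such pairs `(F, p)`, and for `F` in a Baire set of `Diff^r(W)` these points `p` are limits of
periodic points of `F`.
-/

open scoped ContDiff Manifold Topology

namespace Pool.Agent.Results.MP_1e8d1a_an.EquivariantClosing

open Pool.Agent.SC Pool.Agent.EQ

variable {E : Type} [NormedAddCommGroup E] [NormedSpace ℝ E] {H : Type} [TopologicalSpace H]
  (I : ModelWithCorners ℝ E H) {W : Type} [TopologicalSpace W] [ChartedSpace H W]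

/-- `F` commutes with a smooth action `ρ` of the torus `ℝ^k/ℤ^k` on `W`, of large dimension `k`, such
that the isotropy group of `p` is trivial, and `p` is recurrent or nonwandering for `F` in the sense
of the problem. -/
def EquivPair (r : ℕ) (F : W ≃ₘ^((r : ℕ∞) : WithTop ℕ∞)⟮I, I⟯ W) (p : W) : Prop :=
  ∃ (k : ℕ) (ρ : (Fin k → ℝ) → W → W), 3 ≤ k ∧
    (r * (r - 1) < k ∨ (r - 1) * (Module.finrank ℝ E - k) < k) ∧ IsTorusAction I k ρ ∧
    (∀ v q, F (ρ v q) = ρ v (F q)) ∧ (∀ v, ρ v p = p → ∃ m : Fin k → ℤ, v = fun i => (m i : ℝ)) ∧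
    (Recurrent F.toEquiv p ∨ ∀ O ∈ 𝓝 p, ∃ m : ℕ, 1 ≤ m ∧ (((F : W → W)^[m] '' O) ∩ O).Nonempty)

/-- `(F, p)` is a limit, in `Diff^r(W) × W`, of pairs as in `EquivPair`; the tori and their actions
may be different for different pairs. -/
def EquivLimit (r : ℕ) (F : W ≃ₘ^((r : ℕ∞) : WithTop ℕ∞)⟮I, I⟯ W) (p : W) : Prop :=
  ∀ U ∈ @nhds _ (crTopology I (r : ℕ∞)) F, ∀ V ∈ 𝓝 p, ∃ F' ∈ U, ∃ p' ∈ V, EquivPair I r F' p'

/-- **Equivariant closing lemma.** -/
theorem result (E : Type) [NormedAddCommGroup E] [NormedSpace ℝ E] [FiniteDimensional ℝ E]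
    (H : Type) [TopologicalSpace H] (I : ModelWithCorners ℝ E H) [I.Boundaryless]
    (W : Type) [TopologicalSpace W] [T2Space W] [CompactSpace W] [ChartedSpace H W]
    [IsManifold I ∞ W] (r : ℕ) (hr : 1 ≤ r) :
    (∀ (F : W ≃ₘ^((r : ℕ∞) : WithTop ℕ∞)⟮I, I⟯ W) (p : W),
      EquivPair I r F p ∨ EquivLimit I r F p → Closable I F p) ∧
    BaireSet I (r : ℕ∞) {F : W ≃ₘ^((r : ℕ∞) : WithTop ℕ∞)⟮I, I⟯ W | ∀ p, EquivLimit I r F p →
      p ∈ closure {x : W | ∃ n : ℕ, 0 < n ∧ (F : W → W)^[n] x = x}} := by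
  have h1 : ∀ (F : W ≃ₘ^((r : ℕ∞) : WithTop ℕ∞)⟮I, I⟯ W) (p : W), EquivPair I r F p →
      Closable I F p := by
    rintro F p ⟨k, ρ, hk, hkr, hρ, hF, hp, h⟩
    refine equivariant_closing2 r hr hk hkr hρ hp F hF ?_
    rcases h with h | h
    · exact nonwandering_of_recurrent r F p h
    · intro O hO
      obtain ⟨m, hm, x, ⟨q, hq, rfl⟩, hx⟩ := h O hO
      exact ⟨m, hm, q, hq, hx⟩
  have h2 : ∀ (F : W ≃ₘ^((r : ℕ∞) : WithTop ℕ∞)⟮I, I⟯ W) (p : W), EquivLimit I r F p →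
      Closable I F p := by
    intro F p h
    refine closable_of_pairs F p fun U hU V hV => ?_
    obtain ⟨F', hF', p', hp', h3⟩ := h U hU V hV
    exact ⟨F', hF', p', hp', h1 F' p' h3⟩
  refine ⟨fun F p h => h.elim (h1 F p) (h2 F p), ?_⟩
  obtain ⟨U, hU, hs⟩ := generic_closable (I := I) (W := W) (r := (r : ℕ∞)) (by exact_mod_cast hr)
  exact ⟨U, hU, hs.trans fun F hF p hp => hF p (h2 F p hp)⟩

end Pool.Agent.Results.MP_1e8d1a_an.EquivariantClosing
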