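import Pool.Agent.Lib.MP_1e8d1a_an.XP.ExtK
import Pool.Agent.Lib.MP_1e8d1a_an.XN.Main
import Pool.Agent.Lib.MP_1e8d1a_an.HM.GenD

/-!
The `C^r` closing lemma, `1 ≤ r ≤ ∞`, for exponentially mixing diffeomorphisms of closed manifolds
and, more generally, at the points of closed invariant sets on which the map is a skew product
`(z, x) ↦ (g z, f_z x)` with mixing fibre maps over an ARBITRARY map `g`, or an extension of such a
skew product by a compact connected group of symmetries.  The same holds for limits of such pairs,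
and for `F` in a Baire set of `Diff^r(W)` these points are limits of periodic points of `F`.
-/

open scoped ContDiff Manifold Topology
open MeasureTheory

namespace Pool.Agent.Results.MP_1e8d1a_an.MixingClosing

open Pool.Agent.SC Pool.Agent.XM

variable {E : Type} [NormedAddCommGroup E] [NormedSpace ℝ E] {H : Type} [TopologicalSpace H]
  (I : ModelWithCorners ℝ E H) {W : Type} [TopologicalSpace W] [ChartedSpace H W]

/-- `F` mixes the `C^l` functions exponentially for the probability measure `μ`, `μ` is invariant and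
`p` is in the support of `μ`. -/
def ExpPair (r : ℕ∞) (F : W ≃ₘ^r⟮I, I⟯ W) (p : W) : Prop :=
  ∃ (_ : MeasurableSpace W) (_ : BorelSpace W) (μ : Measure W) (D : ℕ) (ι : W → Fin D → ℝ),
    IsProbabilityMeasure μ ∧ MeasurePreserving F μ μ ∧ (∀ O ∈ 𝓝 p, 0 < μ O) ∧ IsEmb I ι ∧
      ∃ (l : ℕ) (C θ : ℝ), 0 < θ ∧ θ < 1 ∧
        ∀ n : ℕ, XP.MixMap ι l ((F : W → W)^[n]) μ (C * θ ^ n)

/-- `K` is a closed invariant set, `p ∈ K`, and on `K` the map `F` is a skew product
`S (z, x) = (g z, f_z x)` as in `MixingAt`, or an extension of it by a compact connected group of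
symmetries; `p` is a point over `(z, x)`, i.e. `π p = (z, x)`.  The distances are those of embeddings
of `W`, `Z` and `X` in Euclidean spaces.  (No symmetries: `π` is a bi-Lipschitz map of `K` onto `Z × X`,
`π F = S π`.) -/
def SkewPair (r : ℕ∞) (F : W ≃ₘ^r⟮I, I⟯ W) (p : W) : Prop :=
  ∃ (K : Set W) (Z X : Type) (_ : TopologicalSpace Z) (_ : T2Space Z) (_ : CompactSpace Z)
    (_ : TopologicalSpace X) (_ : T2Space X) (_ : CompactSpace X) (_ : MeasurableSpace X)
    (_ : BorelSpace X) (D₀ D D' : ℕ) (ι : W → Fin D₀ → ℝ) (κ : Z → Fin D → ℝ)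
    (κ' : X → Fin D' → ℝ) (S : Z × X → Z × X) (π : W → Z × X),
    IsClosed K ∧ p ∈ K ∧ IsEmb I ι ∧ Continuous κ ∧ Function.Injective κ ∧ Continuous κ' ∧
      Function.Injective κ' ∧
      XP.SymExt I r K ι F (fun v : Z × X => Fin.append (κ v.1) (κ' v.2)) S π ∧
      XP.MixingAt r κ κ' S (π p)

/-- `(F, p)` is a limit, in `Diff^r(W) × W`, of pairs as in `ExpPair` or `SkewPair`. -/
def MixLimit (r : ℕ∞) (F : W ≃ₘ^r⟮I, I⟯ W) (p : W) : Prop :=
  ∀ U ∈ @nhds _ (crTopology I r) F, ∀ V ∈ 𝓝 p, ∃ F' ∈ U, ∃ p' ∈ V,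
    ExpPair I r F' p' ∨ SkewPair I r F' p'

/-- **The closing lemma for mixing diffeomorphisms and for skew products with mixing fibres.** -/
theorem result (E : Type) [NormedAddCommGroup E] [NormedSpace ℝ E] [FiniteDimensional ℝ E]
    (H : Type) [TopologicalSpace H] (I : ModelWithCorners ℝ E H) [I.Boundaryless]
    (W : Type) [TopologicalSpace W] [T2Space W] [CompactSpace W] [ChartedSpace H W]
    [IsManifold I ∞ W] (r : ℕ∞) (hr : 1 ≤ r) :
    (∀ (F : W ≃ₘ^r⟮I, I⟯ W) (p : W),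
      ExpPair I r F p ∨ SkewPair I r F p ∨ MixLimit I r F p → Closable I F p) ∧
    BaireSet I r {F : W ≃ₘ^r⟮I, I⟯ W | ∀ p, MixLimit I r F p →
      p ∈ closure {x : W | ∃ n : ℕ, 0 < n ∧ (F : W → W)^[n] x = x}} := by
  have h1 : ∀ (F : W ≃ₘ^r⟮I, I⟯ W) (p : W), ExpPair I r F p ∨ SkewPair I r F p →
      Closable I F p := by
    intro F p h
    rcases h with ⟨i1, i2, μ, D, ι, hμ, hinv, hp, hι, l, C, θ, h0, h1, hmix⟩ |
      ⟨K, Z, X, z1, z2, z3, x1, x2, x3, x4, x5, D₀, D, D', ι, κ, κ', S, π, hK, hpK, hι, hκ, hκi, hκ',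
        hκi', h, hmix⟩
    · exact XN.closable_of_mixing hι hr F μ hinv p hp (Or.inl ⟨l, C, θ, h0, h1, hmix⟩)
    · exact XP.closable_of_mixingAt hκ hκi hκ' hκi' hι hr F hK S π h p hpK hmix
  have h2 : ∀ (F : W ≃ₘ^r⟮I, I⟯ W) (p : W), MixLimit I r F p → Closable I F p := by
    intro F p h
    refine closable_of_pairs F p fun U hU V hV => ?_
    obtain ⟨F', hF', p', hp', h3⟩ := h U hU V hV
    exact ⟨F', hF', p', hp', h1 F' p' h3⟩
  refine ⟨fun F p h => ?_, ?_⟩
  · rcases h with h | h | h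
    exacts [h1 F p (Or.inl h), h1 F p (Or.inr h), h2 F p h]
  · obtain ⟨U, hU, hs⟩ := generic_closable (I := I) (W := W) (r := r) hr
    exact ⟨U, hU, hs.trans fun F hF p hp => hF p (h2 F p hp)⟩

end Pool.Agent.Results.MP_1e8d1a_an.MixingClosing
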