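import Pool.Agent.Lib.Closing.Statement
import Pool.Agent.Lib.Closing.GeoSys
import Pool.Agent.Lib.Closing.BridgeOrb
import Pool.Agent.Lib.Closing.PureMain
import Pool.Agent.Lib.Closing.NoPer

/-!
# MP_1e8d1a_an, Q1: the `C^r` closing lemma fails for every `r ≥ 2` (strong topology,
noncompact manifolds)

The definitions used in the statement (`strongTopology`, `Recurrent`, `ClosingLemma`) are in
`Pool/Agent/Lib/Closing/Statement.lean`.  The manifold `M` is the globalization of a system of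
partial diffeomorphisms of `ℝ³` (`Manifold.lean`, `Windows.lean`); the neighbourhood is
constructed in `Strong.lean`, `Cross.lean`, `NoPer.lean`; the dynamical core is `PureMain.lean`.
-/

open scoped ContDiff Manifold Topology
open Set Filter Pool.Agent.Closing

namespace Pool.Agent.Results.MP_1e8d1a_an.NoncompactDisproof

/-- A point outside of all windows and of all their images. -/
private theorem far_not_mem {B : ℝ} (hB : 400 ≤ B) (j : Word) :
    ((2, 5, 5) : E) ∉ D B j ∧ ((2, 5, 5) : E) ∉ S B j := by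
  have hn : ‖((2, 5, 5) : E).2‖ = 5 := by
    simp [Prod.norm_def]
  constructor
  · intro h
    have := norm_snd_lt_of_mem_D hB h
    rw [hn] at this
    norm_num at this
  · intro h
    have := abs_fst_le_of_mem_S hB h (by rw [hn]; norm_num)
    norm_num at this

private theorem noncompact {B : ℝ} (hB : 400 ≤ B) : NoncompactSpace (sys B hB).Mfd := by
  refine ⟨fun hc => ?_⟩
  set R := sys B hB with hR
  obtain ⟨F, hF⟩ := hc.elim_finite_subcover (fun s : ℤ => range (R.phi s))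
    (fun s => (R.isOpenEmbedding_phi s).isOpen_range) (by rw [R.iUnion_range_phi])
  obtain ⟨s0, hs0⟩ := Infinite.exists_notMem_finset F
  have h1 : R.phi s0 (2, 5, 5) ∈ ⋃ s ∈ F, range (R.phi s) := hF (mem_univ _)
  simp only [mem_iUnion] at h1
  obtain ⟨s, hs, z, hz⟩ := h1
  rw [R.phi_eq_iff] at hz
  have hne : s ≠ s0 := fun h => hs0 (h ▸ hs)
  rcases hz with ⟨n, hn, hc⟩ | ⟨n, hn, hc⟩
  · obtain ⟨i, m, hi, -, -⟩ := RetSys.Chain.exists_snoc hc (by omega)
    exact (far_not_mem hB i).2 hi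
  · obtain ⟨i, m, hi, -, -⟩ := RetSys.Chain.exists_cons hc (by omega)
    exact (far_not_mem hB i).1 hi

/-- Forward recurrence of the base point, from a sequence of positive return times, given that
the base point is not periodic. -/
private theorem forward_recurrent {R : RetSys E Word} (h : Rec R) (r : ℕ∞)
    (hnp : ∀ n : ℕ, 0 < n → (R.shift r : R.Mfd → R.Mfd)^[n] (R.phi 0 0) ≠ R.phi 0 0)
    (V : Set R.Mfd) (hV : V ∈ 𝓝 (R.phi 0 0)) (N : ℕ) :
    ∃ n ≥ N, (R.shift r : R.Mfd → R.Mfd)^[n] (R.phi 0 0) ∈ V := by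
  obtain ⟨z, T, hT, hz, hlim⟩ := h
  have hfin : (⋂ n ∈ Finset.Ioo 0 N,
      {(R.shift r : R.Mfd → R.Mfd)^[n] (R.phi 0 0)}ᶜ) ∈ 𝓝 (R.phi 0 0) := by
    rw [Filter.biInter_finset_mem]
    intro n hn
    exact isOpen_compl_singleton.mem_nhds (hnp n (Finset.mem_Ioo.1 hn).1).symm
  have hlim' : Tendsto (fun n => R.phi 0 (z n)) atTop (𝓝 (R.phi 0 0)) :=
    ((R.continuous_phi 0).tendsto 0).comp hlim
  obtain ⟨n, hn⟩ := (hlim'.eventually (Filter.inter_mem hV hfin)).exists
  have h1 : (R.shift r : R.Mfd → R.Mfd)^[T n] (R.phi 0 0) = R.phi 0 (z n) :=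
    R.shift_iterate_of_chain r (hz n) 0
  refine ⟨T n, ?_, h1 ▸ hn.1⟩
  by_contra hlt
  have h2 := hn.2
  rw [mem_iInter₂] at h2
  exact h2 (T n) (Finset.mem_Ioo.2 ⟨hT n, not_le.1 hlt⟩) (by rw [h1]; rfl)

/-- **The `C^r` closing lemma fails for every `r ∈ {2, 3, …, ∞}`** (Q1, noncompact `M`, strong
topology).  There are a connected noncompact smooth `3`-manifold `M` without boundary, a `C^∞`
diffeomorphism `f` of `M` and a point `x`, recurrent under forward iteration of `f`, such that,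
for every `r` with `2 ≤ r ≤ ∞`, some neighbourhood `U` of `f` in the strong `C^r` topology of
`Diff^r(M)` contains no `g` having a periodic point; in particular `x` is not a periodic point of
any `g ∈ U`. -/
theorem result :
    ∃ (M : Type) (_ : TopologicalSpace M) (_ : T2Space M) (_ : SecondCountableTopology M)
      (_ : ConnectedSpace M) (_ : NoncompactSpace M) (_ : ChartedSpace (ℝ × ℝ × ℝ) M)
      (_ : IsManifold 𝓘(ℝ, ℝ × ℝ × ℝ) ∞ M)
      (f : M ≃ₘ^∞⟮𝓘(ℝ, ℝ × ℝ × ℝ), 𝓘(ℝ, ℝ × ℝ × ℝ)⟯ M) (x : M),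
      Recurrent f.toEquiv x ∧
      (∀ V ∈ 𝓝 x, ∀ N : ℕ, ∃ n ≥ N, (f : M → M)^[n] x ∈ V) ∧
      ∀ r : ℕ∞, 2 ≤ r →
        ∃ F : M ≃ₘ^r⟮𝓘(ℝ, ℝ × ℝ × ℝ), 𝓘(ℝ, ℝ × ℝ × ℝ)⟯ M, (F : M → M) = f ∧
          ∃ U ∈ @nhds _ (strongTopology (ℝ × ℝ × ℝ) M r) F,
            ∀ g ∈ U, ∀ p : M, ∀ n : ℕ, 0 < n → (g : M → M)^[n] p ≠ p := by
  obtain ⟨e, he, hc⟩ := no_cycle_of_pure (fun _ O ⟨L, hL⟩ => Pure.pure_theorem O L hL)
    (le_refl (4000 : ℝ))
  have hB : (400 : ℝ) ≤ 4000 := by norm_num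
  set R := sys 4000 hB with hR
  have geo : Geo 4000 R := geo_sys hB
  have hrec : Rec R := rec_sys hB
  refine ⟨R.Mfd, inferInstance, inferInstance, inferInstance, connectedSpace_sys hB,
    noncompact hB, inferInstance, inferInstance, R.shift ⊤, R.phi 0 0,
    hrec.recurrent ⊤, ?_, fun r hr => ?_⟩
  · refine forward_recurrent hrec ⊤ fun n hn => ?_
    obtain ⟨U, hU, hU'⟩ := geo.exists_nhds_noper he hc (r := ⊤) le_top
    exact hU' _ (@mem_of_mem_nhds _ (strongTopology E R.Mfd ⊤) _ _ hU) _ n hn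
  · obtain ⟨U, hU, hU'⟩ := geo.exists_nhds_noper he hc hr
    exact ⟨R.shift r, rfl, U, hU, hU'⟩

end Pool.Agent.Results.MP_1e8d1a_an.NoncompactDisproof
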