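import Pool.Agent.Lib.MP_1e8d1a_an.NH.PHCyc
import Pool.Agent.Lib.MP_1e8d1a_an.HM.GenD

/-!
The `C^r` closing lemma (`1 ≤ r ≤ ∞`, compact manifolds) at homoclinic points and heteroclinic cycles
of partially hyperbolic sets, and at the points of these sets; density of the periodic points in
them for `C^r`-generic maps.
-/

open scoped ContDiff Manifold Topology

namespace Pool.Agent.Results.MP_1e8d1a_an.PartiallyHyperbolicClosing

open Pool.Agent.SC

/-- **Closing lemma over partially hyperbolic sets.** The first part is about cycles of transitive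
sets (case `k = 0`: a homoclinic point of one set, for instance of the orbit closure of a recurrent
point); the other parts are about all limits of good pairs. -/
theorem result (r : ℕ∞) (hr : 1 ≤ r) (E : Type) [NormedAddCommGroup E] [NormedSpace ℝ E]
    [FiniteDimensional ℝ E] (H : Type) [TopologicalSpace H] (I : ModelWithCorners ℝ E H)
    [I.Boundaryless] (W : Type) [TopologicalSpace W] [T2Space W] [CompactSpace W]
    [ChartedSpace H W] [IsManifold I ∞ W] :
    (∀ (F : W ≃ₘ^r⟮I, I⟯ W) (k : ℕ) (Λ : Fin (k + 1) → Set W) (q yp ym : Fin (k + 1) → W),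
      PHCycle I F.toEquiv k Λ q yp ym →
      (∀ j, TransitiveOn F (Λ j) ∨ ∃ x, Recurrent F.toEquiv x ∧
        Λ j = closure (Set.range fun i : ℤ => (F.toEquiv ^ i : Equiv.Perm W) x)) →
      ∀ j, ∀ p ∈ insert (q j) (Λ j), PHGood I F p ∧ Closable I F p) ∧
    (∀ (F : W ≃ₘ^r⟮I, I⟯ W) (p : W), PHLimit I F p → Closable I F p) ∧
    BaireSet I r {F : W ≃ₘ^r⟮I, I⟯ W | ∀ p, PHLimit I F p →
      p ∈ closure {x : W | ∃ n : ℕ, 0 < n ∧ (F : W → W)^[n] x = x}} := by
  refine ⟨fun F k Λ q yp ym h ht j p hp => ?_, ph_closable_limit, ?_⟩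
  · have hg : PHGood I F p := ph_good_of_trans hr F h (fun i => by
      rcases ht i with h3 | ⟨x, hx, h3⟩
      · exact h3
      · exact (ph_recurrent F.toHomeomorph hx h3 (h.1 i).2.1).2) j p hp
    exact ⟨hg, ph_closable_limit F p fun U hU V hV =>
      ⟨F, @mem_of_mem_nhds _ (crTopology I r) _ _ hU, p, mem_of_mem_nhds hV, hg⟩⟩
  · obtain ⟨U, hU, hs⟩ := generic_closable (I := I) (W := W) hr
    exact ⟨U, hU, hs.trans fun F hF p hp => hF p (ph_closable_limit F p hp)⟩

end Pool.Agent.Results.MP_1e8d1a_an.PartiallyHyperbolicClosing
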